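import Mathlib

/-!
# MP_99184a_co, Q1: all coefficients of mirror deformed Markov numbers are positive
-/

set_option autoImplicit false

namespace Pool.Agent.Results.MP_99184a_co.Positivity

open Polynomial LaurentPolynomial

/-- the symmetrisation `X(q) = x(q) x(1/q)` -/
noncomputable def symm (x : ℤ[X]) : ℤ[T;T⁻¹] := toLaurent x * invert (toLaurent x)

/-- `c' = q^{deg c} (q^s Y + C) / x~`, as an exact division. Here `x~ = x.reverse`. -/
def IsMut (x y c : ℤ[X]) (s : ℤ) (c' : ℤ[X]) : Prop :=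
  toLaurent (c' * x.reverse) = T (c.natDegree : ℤ) * (T s * symm y + symm c)

open Classical in
/-- the polynomial `q^{deg c} (q^s Y + C) / x~` (and `0` if the division is not exact) -/
noncomputable def mutate (x y c : ℤ[X]) (s : ℤ) : ℤ[X] :=
  if h : ∃ c' : ℤ[X], IsMut x y c s c' then h.choose else 0

/-- A triple together with the sign of the mutation that produced it. -/
structure Vtx where
  a : ℤ[X]
  b : ℤ[X]
  c : ℤ[X]
  s : ℤ

/-- the child of a vertex: `false` is the left-edge child, `true` the right-edge child -/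
noncomputable def child (v : Vtx) : Bool → Vtx
  | false => ⟨v.a, v.c, mutate v.b v.a v.c v.s, v.s⟩
  | true => ⟨v.b, v.c, mutate v.a v.b v.c (-v.s), -v.s⟩

/-- the vertex `t₀ = (1, 1+q, 1+2q+2q²)`, produced by a positive mutation -/
noncomputable def root : Vtx := ⟨1, 1 + X, 1 + 2 * X + 2 * X ^ 2, 1⟩

/-- the vertices of the tree below `t₀`, addressed by the list of left/right moves from `t₀` -/
noncomputable def vertex (w : List Bool) : Vtx := w.foldl child root

/-- The vertex set of the whole tree: the chain `(1,1,1) → (1,1,1+q)` on top of `t₀`. -/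
inductive Node
  | top : Node
  | second : Node
  | below (w : List Bool) : Node

/-- the entries of the triple at a vertex -/
noncomputable def entries : Node → List ℤ[X]
  | Node.top => [1, 1, 1]
  | Node.second => [1, 1, 1 + X]
  | Node.below w => [(vertex w).a, (vertex w).b, (vertex w).c]

/-! ### Coefficientwise nonnegativity -/

def NN (p : ℤ[X]) : Prop := ∀ n, 0 ≤ p.coeff n

lemma NN.add {p q : ℤ[X]} (hp : NN p) (hq : NN q) : NN (p + q) := fun n => by
  rw [coeff_add]; exact add_nonneg (hp n) (hq n)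

lemma NN.mul {p q : ℤ[X]} (hp : NN p) (hq : NN q) : NN (p * q) := fun n => by
  rw [coeff_mul]; exact Finset.sum_nonneg fun x _ => mul_nonneg (hp _) (hq _)

lemma NN_X_pow (i : ℕ) : NN (X ^ i : ℤ[X]) := fun n => by
  rw [coeff_X_pow]; split_ifs <;> norm_num

lemma NN.coeff_le {p q : ℤ[X]} (h : NN (q - p)) (n : ℕ) : p.coeff n ≤ q.coeff n := by
  have := h n
  rw [coeff_sub] at this
  omega

/-- all coefficients of `p` up to degree `D` are at least `k`, the others vanish -/
def Full (p : ℤ[X]) (D : ℕ) (k : ℤ) : Prop := (∀ i ≤ D, k ≤ p.coeff i) ∧ p.natDegree ≤ D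

lemma Full.nn {p : ℤ[X]} {D : ℕ} {k : ℤ} (h : Full p D k) (hk : 0 ≤ k) : NN p := fun n => by
  by_cases hn : n ≤ D
  · exact hk.trans (h.1 n hn)
  · rw [coeff_eq_zero_of_natDegree_lt (by have := h.2; omega)]

lemma Full.mono {p : ℤ[X]} {D : ℕ} {k l : ℤ} (h : Full p D k) (hk : l ≤ k) : Full p D l :=
  ⟨fun i hi => hk.trans (h.1 i hi), h.2⟩

lemma Full.natDegree {p : ℤ[X]} {D : ℕ} (h : Full p D 1) : p.natDegree = D := by
  refine le_antisymm h.2 (le_natDegree_of_ne_zero ?_)
  have := h.1 D le_rfl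
  omega

lemma Full.ne_zero {p : ℤ[X]} {D : ℕ} (h : Full p D 1) : p ≠ 0 := by
  rintro rfl
  have := h.1 0 (Nat.zero_le _)
  simp at this

/-- `p - k X^j` is nonnegative if the `j`-th coefficient is at least `k` -/
lemma NN_sub_one {p : ℤ[X]} {D : ℕ} (h : Full p D 1) {j : ℕ} {k : ℤ} (hj : k ≤ p.coeff j) :
    NN (p - Polynomial.C k * X ^ j) := fun n => by
  rw [coeff_sub, coeff_C_mul, coeff_X_pow]
  by_cases hn : n = j
  · subst hn; simp; exact hj
  · simp only [hn, if_false, mul_zero, sub_zero]; exact h.nn (by norm_num) n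

lemma NN_sub_two {p : ℤ[X]} {D : ℕ} (h : Full p D 1) {i j : ℕ} (hi : i ≤ D) (hj : j ≤ D)
    (hij : i ≠ j) : NN (p - X ^ i - X ^ j) := fun n => by
  rw [coeff_sub, coeff_sub, coeff_X_pow, coeff_X_pow]
  have h0 := h.nn (by norm_num) n
  by_cases hn : n = i
  · subst hn
    rw [if_pos rfl, if_neg hij]
    have := h.1 n hi
    omega
  · rw [if_neg hn]
    by_cases hn' : n = j
    · subst hn'
      rw [if_pos rfl]
      have := h.1 n hj
      omega
    · rw [if_neg hn']; omega

/-- first domination -/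
lemma dom_one {P R Q : ℤ[X]} {D : ℕ} (hD : 1 ≤ D) (hP : Full P D 1) (hR : NN R)
    (hdom : ∀ i ≤ D, NN (R - X ^ i * Q)) {i : ℕ} (hi : i ≤ D) :
    NN ((P * R - X ^ D * Q) - X ^ i * R) := by
  obtain ⟨j, hj, hij⟩ : ∃ j ≤ D, i ≠ j := by
    by_cases h : i = 0
    · exact ⟨1, hD, by omega⟩
    · exact ⟨0, by omega, h⟩
  have e : (P * R - X ^ D * Q) - X ^ i * R
      = (P - X ^ i - X ^ j) * R + X ^ j * (R - X ^ (D - j) * Q) := by
    have : (X : ℤ[X]) ^ D = X ^ j * X ^ (D - j) := by rw [← pow_add]; congr 1; omega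
    rw [this]; ring
  rw [e]
  exact ((NN_sub_two hP hi hj hij).mul hR).add ((NN_X_pow j).mul (hdom _ (by omega)))

/-- second domination -/
lemma dom_two {P R Q : ℤ[X]} {D E : ℕ} (hP : Full P D 1) (hP2 : ∃ j ≤ D, 2 ≤ P.coeff j)
    (hR : Full R E 2) (hdom : ∀ i ≤ D, NN (R - X ^ i * Q)) {k : ℕ} (hk : k ≤ E) :
    NN ((P * R - X ^ D * Q) - X ^ k * P) := by
  obtain ⟨j, hj, hj2⟩ := hP2
  have e : (P * R - X ^ D * Q) - X ^ k * P
      = (P - Polynomial.C 1 * X ^ j) * (R - Polynomial.C 2 * X ^ k) +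
        X ^ j * (R - X ^ (D - j) * Q) + X ^ k * (P - Polynomial.C 2 * X ^ j) := by
    have : (X : ℤ[X]) ^ D = X ^ j * X ^ (D - j) := by rw [← pow_add]; congr 1; omega
    have h1 : (Polynomial.C 1 : ℤ[X]) = 1 := rfl
    have h2 : (Polynomial.C 2 : ℤ[X]) = 2 := rfl
    rw [this, h1, h2]; ring
  rw [e]
  refine (NN.add (NN.mul (NN_sub_one hP (hP.1 j hj)) (NN_sub_one (hR.mono (by norm_num)) (hR.1 k hk)))
    ((NN_X_pow j).mul (hdom _ (by omega)))).add ((NN_X_pow k).mul (NN_sub_one hP hj2))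

/-- fullness of the new polynomial -/
lemma full_new {P R Q : ℤ[X]} {D E : ℕ} {k : ℤ} (hP : P.natDegree ≤ D) (hR : Full R E k)
    (hQ : Q.natDegree ≤ E)
    (h : ∀ i ≤ D, NN ((P * R - X ^ D * Q) - X ^ i * R)) : Full (P * R - X ^ D * Q) (D + E) k := by
  constructor
  · intro n hn
    have h1 := (h (min n D) (min_le_right _ _)).coeff_le n
    rw [coeff_X_pow_mul', if_pos (min_le_left _ _)] at h1
    exact (hR.1 _ (by omega)).trans h1
  · refine (natDegree_sub_le _ _).trans (max_le ?_ ?_)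
    · exact natDegree_mul_le.trans (add_le_add hP hR.2)
    · refine natDegree_mul_le.trans ?_
      rw [natDegree_X_pow]
      omega

/-! ### Laurent identities -/

section ring
variable {R : Type*} [CommRing R]

/-- the six product formulas at a vertex -/
structure Eqs (u v x y a a' b b' c c' P P' Q Q' S S' : R) : Prop where
  e1 : P * c * b' = x * (u * (a * a') + b * b' + c * c')
  f1 : P' * c' * b = v * (a * a') + b * b' + c * c'
  e2 : Q * a * c' = u * (b * b') + a * a' + c * c'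
  f2 : Q' * a' * c = y * (v * (b * b') + a * a' + c * c')
  e3 : S * b * a' = y * v * (u * (c * c') + a * a' + b * b')
  f3 : S' * b' * a = x * u * (v * (c * c') + a * a' + b * b')

lemma Eqs.left [IsDomain R] {u v x x' y a a' b b' c c' P P' Q Q' S S' d d' : R}
    (h : Eqs u v x y a a' b b' c c' P P' Q Q' S S') (huv : u * v = 1) (hx : x * x' = 1)
    (hb : b ≠ 0) (hb' : b' ≠ 0)
    (hd : d * b' = x * (u * (a * a') + c * c')) (hd' : d' * b = x' * (v * (a * a') + c * c')) :
    Eqs u v x (x * y) a a' c c' d d' P' P S' S (P * S - x * Q') (P' * S' - x * Q) := by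
  have hB : b * b' ≠ 0 := mul_ne_zero hb hb'
  have hDB : (d * d') * (b * b') = (u * (a * a') + c * c') * (v * (a * a') + c * c') := by
    linear_combination (d' * b) * hd + x * (u * (a * a') + c * c') * hd'
      + (u * (a * a') + c * c') * (v * (a * a') + c * c') * hx
  refine ⟨?_, ?_, ?_, ?_, ?_, ?_⟩
  · apply mul_right_cancel₀ hB
    linear_combination (P' * c' * b) * hd + (x * (u * (a * a') + c * c')) * h.f1 - x * hDB
  · apply mul_right_cancel₀ hB
    linear_combination (P * c * b') * hd' + (x' * (v * (a * a') + c * c')) * h.e1 - hDB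
      + (u * (a * a') + b * b' + c * c') * (v * (a * a') + c * c') * hx
  · apply mul_right_cancel₀ hB
    linear_combination (S' * b' * a) * hd' + (x' * (v * (a * a') + c * c')) * h.f3 - hDB
      + u * (v * (c * c') + a * a' + b * b') * (v * (a * a') + c * c') * hx
      + (v * (a * a') * (c * c') + (c * c') ^ 2 + a * a' * (b * b')) * huv
  · apply mul_right_cancel₀ hB
    linear_combination (S * b * a') * hd + (x * (u * (a * a') + c * c')) * h.e3 - x * y * hDB
      + x * y * (u * (a * a') * (c * c') + (c * c') ^ 2 + a * a' * (b * b')) * huv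
  · apply mul_right_cancel₀ hB
    linear_combination (S * b * a') * h.e1 + (x * (u * (a * a') + b * b' + c * c')) * h.e3
      - x * (b * b') * h.f2 - x * y * v * u * hDB
      + x * y * (-v * (a * a') * (c * c') + (b * b') * (c * c') + (a * a') * (b * b') - u * v * (a * a') ^ 2) * huv
  · apply mul_right_cancel₀ hB
    linear_combination (S' * b' * a) * h.f1 + (v * (a * a') + b * b' + c * c') * h.f3
      - x * (b * b') * h.e2 - x * u * v * hDB
      + x * (-u * (a * a') * (c * c') + (b * b') * (c * c') + (a * a') * (b * b') - u * v * (a * a') ^ 2) * huv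

lemma Eqs.right [IsDomain R] {u v x y y' a a' b b' c c' P P' Q Q' S S' d d' : R}
    (h : Eqs u v x y a a' b b' c c' P P' Q Q' S S') (huv : u * v = 1) (hy : y * y' = 1)
    (ha : a ≠ 0) (ha' : a' ≠ 0)
    (hd : d * a' = y * (v * (b * b') + c * c')) (hd' : d' * a = y' * (u * (b * b') + c * c')) :
    Eqs v u y (x * y) b b' c c' d d' Q Q' S S' (Q' * S' - y * P) (Q * S - y * P') := by
  have hA : a * a' ≠ 0 := mul_ne_zero ha ha'
  have hDA : (d * d') * (a * a') = (v * (b * b') + c * c') * (u * (b * b') + c * c') := by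
    linear_combination (d' * a) * hd + y * (v * (b * b') + c * c') * hd'
      + (v * (b * b') + c * c') * (u * (b * b') + c * c') * hy
  refine ⟨?_, ?_, ?_, ?_, ?_, ?_⟩
  · apply mul_right_cancel₀ hA
    linear_combination (Q * a * c') * hd + (y * (v * (b * b') + c * c')) * h.e2 - y * hDA
  · apply mul_right_cancel₀ hA
    linear_combination (Q' * a' * c) * hd' + (y' * (u * (b * b') + c * c')) * h.f2 - hDA
      + (v * (b * b') + a * a' + c * c') * (u * (b * b') + c * c') * hy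
  · apply mul_right_cancel₀ hA
    linear_combination (S * b * a') * hd' + (y' * (u * (b * b') + c * c')) * h.e3 - hDA
      + v * (u * (c * c') + a * a' + b * b') * (u * (b * b') + c * c') * hy
      + ((a * a') * (b * b') + u * (b * b') * (c * c') + (c * c') ^ 2) * huv
  · apply mul_right_cancel₀ hA
    linear_combination (S' * b' * a) * hd + (y * (v * (b * b') + c * c')) * h.f3 - x * y * hDA
      + x * y * ((a * a') * (b * b') + v * (b * b') * (c * c') + (c * c') ^ 2) * huv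
  · apply mul_right_cancel₀ hA
    linear_combination (S' * b' * a) * h.f2 + (y * (v * (b * b') + a * a' + c * c')) * h.f3
      - y * (a * a') * h.e1 - x * y * u * v * hDA
      + x * y * (-u * (b * b') * (c * c') + (a * a') * (c * c') + (a * a') * (b * b') - u * v * (b * b') ^ 2) * huv
  · apply mul_right_cancel₀ hA
    linear_combination (S * b * a') * h.e2 + (u * (b * b') + a * a' + c * c') * h.e3
      - y * (a * a') * h.f1 - y * v * u * hDA
      + y * (-v * (b * b') * (c * c') + (a * a') * (c * c') + (a * a') * (b * b') - u * v * (b * b') ^ 2) * huv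

end ring

/-! ### Exact divisions -/

lemma invert_invert' (x : ℤ[T;T⁻¹]) : invert (invert x) = x := by
  ext n; simp

lemma TT (s : ℤ) : (T s * T (-s) : ℤ[T;T⁻¹]) = 1 := by rw [← T_add]; simp

/-- abbreviation for the bar involution -/
noncomputable def br (x : ℤ[X]) : ℤ[T;T⁻¹] := invert (toLaurent x)

lemma toL_ne {x : ℤ[X]} (hx : x ≠ 0) : toLaurent x ≠ 0 := (toLaurent_ne_zero).2 hx

lemma br_ne {x : ℤ[X]} (hx : x ≠ 0) : br x ≠ 0 := by
  unfold br; simpa using toL_ne hx

lemma isMut_of {x y c c' : ℤ[X]} {s : ℤ} {D : ℕ} (hD : D + x.natDegree = c.natDegree)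
    (h : toLaurent c' * br x = T (D : ℤ) * (T s * symm y + symm c)) : IsMut x y c s c' := by
  unfold IsMut
  have e : (T (D : ℤ) * T (x.natDegree : ℤ) : ℤ[T;T⁻¹]) = T (c.natDegree : ℤ) := by
    rw [← T_add]; congr 1; omega
  rw [map_mul, toLaurent_reverse]
  change toLaurent c' * (br x * T (x.natDegree : ℤ)) = _
  linear_combination (T (x.natDegree : ℤ)) * h + (T s * symm y + symm c) * e

lemma isMut_unique {x y c c' c'' : ℤ[X]} {s : ℤ} (hx : x ≠ 0) (h : IsMut x y c s c')
    (h' : IsMut x y c s c'') : c' = c'' := by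
  unfold IsMut at h h'
  have e := h.trans h'.symm
  rw [toLaurent_inj] at e
  exact mul_right_cancel₀ (by simpa using hx) e

lemma mutate_eq {x y c c' : ℤ[X]} {s : ℤ} (hx : x ≠ 0) (h : IsMut x y c s c') :
    mutate x y c s = c' := by
  have hex : ∃ c' : ℤ[X], IsMut x y c s c' := ⟨c', h⟩
  unfold mutate
  rw [dif_pos hex]
  exact isMut_unique hx hex.choose_spec h

/-! ### The linear system -/

/-- the data carried along the tree -/
structure St (α β : ℕ) (V : Vtx) (P P' Q Q' S S' : ℤ[X]) : Prop where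
  eqs : Eqs (T V.s) (T (-V.s)) (T ((α + 1 : ℕ) : ℤ)) (T ((β + 1 : ℕ) : ℤ))
    (toLaurent V.a) (br V.a) (toLaurent V.b) (br V.b) (toLaurent V.c) (br V.c)
    (toLaurent P) (toLaurent P') (toLaurent Q) (toLaurent Q') (toLaurent S) (toLaurent S')
  fa : Full V.a α 1
  fb : Full V.b β 1
  fc : Full V.c (α + β + 1) 1
  fP : Full P (α + 1) 1
  fP' : Full P' (α + 1) 1
  fQ : Full Q (β + 1) 1
  fQ' : Full Q' (β + 1) 1
  fS : Full S (α + β + 2) 2
  fS' : Full S' (α + β + 2) 2
  gP : ∃ j ≤ α + 1, 2 ≤ P.coeff j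
  gP' : ∃ j ≤ α + 1, 2 ≤ P'.coeff j
  gQ : ∃ j ≤ β + 1, 2 ≤ Q.coeff j
  gQ' : ∃ j ≤ β + 1, 2 ≤ Q'.coeff j
  dSQ : ∀ i ≤ α + 1, NN (S - X ^ i * Q')
  dSQ' : ∀ i ≤ α + 1, NN (S' - X ^ i * Q)
  dSP : ∀ i ≤ β + 1, NN (S - X ^ i * P')
  dSP' : ∀ i ≤ β + 1, NN (S' - X ^ i * P)
  dcb : ∀ i ≤ α + 1, NN (V.c - X ^ i * V.b)
  dca : ∀ i ≤ β + 1, NN (V.c - X ^ i * V.a)

lemma dom_trans {p q r : ℤ[X]} {i j : ℕ} (h1 : NN (p - X ^ i * q)) (h2 : NN (q - X ^ j * r)) :
    NN (p - X ^ (i + j) * r) := by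
  have e : p - X ^ (i + j) * r = (p - X ^ i * q) + X ^ i * (q - X ^ j * r) := by ring
  rw [e]
  exact h1.add ((NN_X_pow i).mul h2)

lemma bar_eq {c' x y c : ℤ[X]} {s : ℤ} {D : ℤ}
    (h : toLaurent c' * br x = T D * (T s * (toLaurent y * br y) + toLaurent c * br c)) :
    br c' * toLaurent x = T (-D) * (T (-s) * (toLaurent y * br y) + toLaurent c * br c) := by
  have h2 := congrArg (invert (R := ℤ)) h
  unfold br at *
  simp only [map_mul, map_add, invert_T, invert_invert'] at h2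
  rw [h2]; ring

lemma St.left_eq {α β : ℕ} {V : Vtx} {P P' Q Q' S S' : ℤ[X]} (h : St α β V P P' Q Q' S S') :
    toLaurent (P * V.c - X ^ (α + 1) * V.b) * br V.b
      = T ((α + 1 : ℕ) : ℤ) * (T V.s * (toLaurent V.a * br V.a) + toLaurent V.c * br V.c) := by
  rw [map_sub, map_mul, map_mul, toLaurent_X_pow]
  linear_combination h.eqs.e1

lemma St.right_eq {α β : ℕ} {V : Vtx} {P P' Q Q' S S' : ℤ[X]} (h : St α β V P P' Q Q' S S') :
    toLaurent (Q' * V.c - X ^ (β + 1) * V.a) * br V.a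
      = T ((β + 1 : ℕ) : ℤ) * (T (-V.s) * (toLaurent V.b * br V.b) + toLaurent V.c * br V.c) := by
  rw [map_sub, map_mul, map_mul, toLaurent_X_pow]
  linear_combination h.eqs.f2

lemma St.left_mut {α β : ℕ} {V : Vtx} {P P' Q Q' S S' : ℤ[X]} (h : St α β V P P' Q Q' S S') :
    IsMut V.b V.a V.c V.s (P * V.c - X ^ (α + 1) * V.b) :=
  isMut_of (by rw [h.fb.natDegree, h.fc.natDegree]; omega) h.left_eq

lemma St.right_mut {α β : ℕ} {V : Vtx} {P P' Q Q' S S' : ℤ[X]} (h : St α β V P P' Q Q' S S') :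
    IsMut V.a V.b V.c (-V.s) (Q' * V.c - X ^ (β + 1) * V.a) :=
  isMut_of (by rw [h.fa.natDegree, h.fc.natDegree]; omega) h.right_eq

lemma ex_two {p : ℤ[X]} {D : ℕ} (h : Full p D 2) : ∃ j ≤ D, 2 ≤ p.coeff j :=
  ⟨0, Nat.zero_le _, h.1 0 (Nat.zero_le _)⟩

lemma St.left {α β : ℕ} {V : Vtx} {P P' Q Q' S S' : ℤ[X]} (h : St α β V P P' Q Q' S S') :
    St α (α + β + 1) (child V false) P' P S' S
      (P * S - X ^ (α + 1) * Q') (P' * S' - X ^ (α + 1) * Q) := by
  have hm : mutate V.b V.a V.c V.s = P * V.c - X ^ (α + 1) * V.b :=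
    mutate_eq h.fb.ne_zero h.left_mut
  have hch : child V false = ⟨V.a, V.c, P * V.c - X ^ (α + 1) * V.b, V.s⟩ := by
    simp only [child, hm]
  have d1 : ∀ i ≤ α + 1, NN ((P * S - X ^ (α + 1) * Q') - X ^ i * S) := fun i hi =>
    dom_one (by omega) h.fP (h.fS.nn (by norm_num)) h.dSQ hi
  have d1' : ∀ i ≤ α + 1, NN ((P' * S' - X ^ (α + 1) * Q) - X ^ i * S') := fun i hi =>
    dom_one (by omega) h.fP' (h.fS'.nn (by norm_num)) h.dSQ' hi
  have d2 : ∀ k ≤ α + β + 2, NN ((P * S - X ^ (α + 1) * Q') - X ^ k * P) := fun k hk =>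
    dom_two h.fP h.gP h.fS h.dSQ hk
  have d2' : ∀ k ≤ α + β + 2, NN ((P' * S' - X ^ (α + 1) * Q) - X ^ k * P') := fun k hk =>
    dom_two h.fP' h.gP' h.fS' h.dSQ' hk
  have dc : ∀ i ≤ α + 1, NN ((P * V.c - X ^ (α + 1) * V.b) - X ^ i * V.c) := fun i hi =>
    dom_one (by omega) h.fP (h.fc.nn (by norm_num)) h.dcb hi
  have fS1 := full_new h.fP.2 h.fS (by have := h.fQ'.2; omega) d1
  have fS1' := full_new h.fP'.2 h.fS' (by have := h.fQ.2; omega) d1'
  have fc1 := full_new h.fP.2 h.fc (by have := h.fb.2; omega) dc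
  have hxy : (T (((α + β + 1) + 1 : ℕ) : ℤ) : ℤ[T;T⁻¹])
      = T ((α + 1 : ℕ) : ℤ) * T ((β + 1 : ℕ) : ℤ) := by
    rw [← T_add]; congr 1; push_cast; ring
  rw [hch]
  refine ⟨?_, h.fa, ?_, ?_, h.fP', h.fP, ?_, ?_, ?_, ?_, h.gP', h.gP, ?_, ?_, d1, d1', ?_, ?_,
    dc, ?_⟩
  · have hbar := bar_eq h.left_eq
    have := h.eqs.left (TT V.s) (TT ((α + 1 : ℕ) : ℤ)) (toL_ne h.fb.ne_zero) (br_ne h.fb.ne_zero)
      h.left_eq hbar
    change Eqs _ _ _ (T (((α + β + 1) + 1 : ℕ) : ℤ)) (toLaurent V.a) (br V.a) (toLaurent V.c)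
      (br V.c) (toLaurent (P * V.c - X ^ (α + 1) * V.b)) (br (P * V.c - X ^ (α + 1) * V.b)) _ _ _ _
      (toLaurent (P * S - X ^ (α + 1) * Q')) (toLaurent (P' * S' - X ^ (α + 1) * Q))
    rw [hxy, map_sub (toLaurent (R := ℤ)) (P * S), map_sub (toLaurent (R := ℤ)) (P' * S'), map_mul,
      map_mul, map_mul, map_mul, toLaurent_X_pow]
    exact this
  · exact h.fc
  · have : α + (α + β + 1) + 1 = (α + 1) + (α + β + 1) := by ring
    rw [this]; exact fc1
  · exact h.fS'.mono (by norm_num)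
  · exact h.fS.mono (by norm_num)
  · have : α + (α + β + 1) + 2 = (α + 1) + (α + β + 2) := by ring
    rw [this]; exact fS1
  · have : α + (α + β + 1) + 2 = (α + 1) + (α + β + 2) := by ring
    rw [this]; exact fS1'
  · exact ex_two h.fS'
  · exact ex_two h.fS
  · exact d2
  · exact d2'
  · intro k hk
    obtain ⟨i, j, hi, hj, rfl⟩ : ∃ i j, i ≤ α + 1 ∧ j ≤ β + 1 ∧ k = i + j :=
      ⟨min k (α + 1), k - min k (α + 1), by omega, by omega, by omega⟩
    exact dom_trans (dc i hi) (h.dca j hj)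

lemma St.right {α β : ℕ} {V : Vtx} {P P' Q Q' S S' : ℤ[X]} (h : St α β V P P' Q Q' S S') :
    St β (α + β + 1) (child V true) Q Q' S S'
      (Q' * S' - X ^ (β + 1) * P) (Q * S - X ^ (β + 1) * P') := by
  have hm : mutate V.a V.b V.c (-V.s) = Q' * V.c - X ^ (β + 1) * V.a :=
    mutate_eq h.fa.ne_zero h.right_mut
  have hch : child V true = ⟨V.b, V.c, Q' * V.c - X ^ (β + 1) * V.a, -V.s⟩ := by
    simp only [child, hm]
  have d1 : ∀ i ≤ β + 1, NN ((Q' * S' - X ^ (β + 1) * P) - X ^ i * S') := fun i hi =>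
    dom_one (by omega) h.fQ' (h.fS'.nn (by norm_num)) h.dSP' hi
  have d1' : ∀ i ≤ β + 1, NN ((Q * S - X ^ (β + 1) * P') - X ^ i * S) := fun i hi =>
    dom_one (by omega) h.fQ (h.fS.nn (by norm_num)) h.dSP hi
  have d2 : ∀ k ≤ α + β + 2, NN ((Q' * S' - X ^ (β + 1) * P) - X ^ k * Q') := fun k hk =>
    dom_two h.fQ' h.gQ' h.fS' h.dSP' hk
  have d2' : ∀ k ≤ α + β + 2, NN ((Q * S - X ^ (β + 1) * P') - X ^ k * Q) := fun k hk =>
    dom_two h.fQ h.gQ h.fS h.dSP hk
  have dc : ∀ i ≤ β + 1, NN ((Q' * V.c - X ^ (β + 1) * V.a) - X ^ i * V.c) := fun i hi =>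
    dom_one (by omega) h.fQ' (h.fc.nn (by norm_num)) h.dca hi
  have fS1 := full_new h.fQ'.2 h.fS' (by have := h.fP.2; omega) d1
  have fS1' := full_new h.fQ.2 h.fS (by have := h.fP'.2; omega) d1'
  have fc1 := full_new h.fQ'.2 h.fc (by have := h.fa.2; omega) dc
  have hxy : (T (((α + β + 1) + 1 : ℕ) : ℤ) : ℤ[T;T⁻¹])
      = T ((α + 1 : ℕ) : ℤ) * T ((β + 1 : ℕ) : ℤ) := by
    rw [← T_add]; congr 1; push_cast; ring
  rw [hch]
  refine ⟨?_, h.fb, ?_, ?_, h.fQ, h.fQ', ?_, ?_, ?_, ?_, h.gQ, h.gQ', ?_, ?_, d1, d1', ?_, ?_,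
    dc, ?_⟩
  · have hbar := bar_eq h.right_eq
    rw [neg_neg] at hbar
    have := h.eqs.right (TT V.s) (TT ((β + 1 : ℕ) : ℤ)) (toL_ne h.fa.ne_zero) (br_ne h.fa.ne_zero)
      h.right_eq hbar
    change Eqs (T (-V.s)) (T (- -V.s)) _ (T (((α + β + 1) + 1 : ℕ) : ℤ)) (toLaurent V.b) (br V.b)
      (toLaurent V.c)
      (br V.c) (toLaurent (Q' * V.c - X ^ (β + 1) * V.a)) (br (Q' * V.c - X ^ (β + 1) * V.a)) _ _ _ _
      (toLaurent (Q' * S' - X ^ (β + 1) * P)) (toLaurent (Q * S - X ^ (β + 1) * P'))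
    rw [neg_neg, hxy, map_sub (toLaurent (R := ℤ)) (Q' * S'), map_sub (toLaurent (R := ℤ)) (Q * S),
      map_mul, map_mul, map_mul, map_mul, toLaurent_X_pow]
    exact this
  · exact h.fc
  · have : β + (α + β + 1) + 1 = (β + 1) + (α + β + 1) := by ring
    rw [this]; exact fc1
  · exact h.fS.mono (by norm_num)
  · exact h.fS'.mono (by norm_num)
  · have : β + (α + β + 1) + 2 = (β + 1) + (α + β + 2) := by ring
    rw [this]; exact fS1
  · have : β + (α + β + 1) + 2 = (β + 1) + (α + β + 2) := by ring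
    rw [this]; exact fS1'
  · exact ex_two h.fS
  · exact ex_two h.fS'
  · exact d2
  · exact d2'
  · intro k hk
    obtain ⟨i, j, hi, hj, rfl⟩ : ∃ i j, i ≤ β + 1 ∧ j ≤ α + 1 ∧ k = i + j :=
      ⟨min k (β + 1), k - min k (β + 1), by omega, by omega, by omega⟩
    exact dom_trans (dc i hi) (h.dcb j hj)

/-! ### The root -/

/-- the polynomial with coefficients `a, b, c, d` -/
noncomputable def pol (a b c d : ℤ) : ℤ[X] :=
  Polynomial.C a + Polynomial.C b * X + Polynomial.C c * X ^ 2 + Polynomial.C d * X ^ 3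

lemma coeff_pol (a b c d : ℤ) (n : ℕ) : (pol a b c d).coeff n =
    if n = 0 then a else if n = 1 then b else if n = 2 then c else if n = 3 then d else 0 := by
  unfold pol
  simp only [coeff_add, Polynomial.coeff_C, coeff_C_mul, coeff_X, coeff_X_pow]
  by_cases h0 : n = 0
  · subst h0; simp
  · by_cases h1 : n = 1
    · subst h1; simp
    · by_cases h2 : n = 2
      · subst h2; simp
      · by_cases h3 : n = 3
        · subst h3; simp
        · simp [h0, h1, h2, h3]; omega

lemma NN_pol {a b c d : ℤ} (ha : 0 ≤ a) (hb : 0 ≤ b) (hc : 0 ≤ c) (hd : 0 ≤ d) :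
    NN (pol a b c d) := fun n => by
  rw [coeff_pol]; split_ifs <;> first | assumption | exact le_rfl

lemma NN_of_eq {p : ℤ[X]} {a b c d : ℤ} (h : p = pol a b c d) (ha : 0 ≤ a) (hb : 0 ≤ b) (hc : 0 ≤ c)
    (hd : 0 ≤ d) : NN p := by
  rw [h]; exact NN_pol ha hb hc hd

lemma pol_expand (a b c d : ℤ) : pol a b c d =
    (a : ℤ[X]) + (b : ℤ[X]) * X + (c : ℤ[X]) * X ^ 2 + (d : ℤ[X]) * X ^ 3 := by
  unfold pol
  simp

lemma full_pol {a b c d k : ℤ} {D : ℕ} (h : ∀ i ≤ D, k ≤ (pol a b c d).coeff i)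
    (h' : ∀ i, D < i → (pol a b c d).coeff i = 0) : Full (pol a b c d) D k :=
  ⟨h, natDegree_le_iff_coeff_eq_zero.2 h'⟩

lemma toL_pol (a b c d : ℤ) : toLaurent (pol a b c d) =
    (a : ℤ[T;T⁻¹]) + (b : ℤ[T;T⁻¹]) * T 1 + (c : ℤ[T;T⁻¹]) * T 1 ^ 2 + (d : ℤ[T;T⁻¹]) * T 1 ^ 3 := by
  rw [pol_expand]
  simp [toLaurent_X]

lemma br_pol (a b c d : ℤ) : br (pol a b c d) =
    (a : ℤ[T;T⁻¹]) + (b : ℤ[T;T⁻¹]) * T (-1) + (c : ℤ[T;T⁻¹]) * T (-1) ^ 2 +
      (d : ℤ[T;T⁻¹]) * T (-1) ^ 3 := by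
  unfold br
  rw [toL_pol]
  simp only [map_add, map_mul, map_pow, invert_T, map_intCast]

lemma root_eq : root = ⟨pol 1 0 0 0, pol 1 1 0 0, pol 1 2 2 0, 1⟩ := by
  unfold root
  rw [pol_expand, pol_expand, pol_expand]
  push_cast
  simp only [Vtx.mk.injEq, and_true]
  refine ⟨by ring, by ring, by ring⟩

lemma full_pol3 {a b c d k : ℤ} (ha : k ≤ a) (hb : k ≤ b) (hc : k ≤ c) (hd : k ≤ d) :
    Full (pol a b c d) 3 k := by
  refine full_pol (fun i hi => ?_) (fun i hi => ?_)
  · interval_cases i <;> rw [coeff_pol] <;> simpa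
  · rw [coeff_pol, if_neg (by omega), if_neg (by omega), if_neg (by omega), if_neg (by omega)]

lemma full_pol2 {a b c k : ℤ} (ha : k ≤ a) (hb : k ≤ b) (hc : k ≤ c) :
    Full (pol a b c 0) 2 k := by
  refine full_pol (fun i hi => ?_) (fun i hi => ?_)
  · interval_cases i <;> rw [coeff_pol] <;> simpa
  · rw [coeff_pol, if_neg (by omega), if_neg (by omega), if_neg (by omega)]; split_ifs <;> rfl

lemma full_pol1 {a b k : ℤ} (ha : k ≤ a) (hb : k ≤ b) : Full (pol a b 0 0) 1 k := by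
  refine full_pol (fun i hi => ?_) (fun i hi => ?_)
  · interval_cases i <;> rw [coeff_pol] <;> simpa
  · rw [coeff_pol, if_neg (by omega), if_neg (by omega)]; split_ifs <;> rfl

lemma full_pol0 {a k : ℤ} (ha : k ≤ a) : Full (pol a 0 0 0) 0 k := by
  refine full_pol (fun i hi => ?_) (fun i hi => ?_)
  · obtain rfl : i = 0 := by omega
    rw [coeff_pol]; simpa
  · rw [coeff_pol, if_neg (by omega)]; split_ifs <;> rfl

lemma root_St : St 0 1 root (pol 2 1 0 0) (pol 1 2 0 0) (pol 1 2 3 0) (pol 3 2 1 0)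
    (pol 3 6 4 2) (pol 2 4 6 3) := by
  rw [root_eq]
  have h := TT 1
  refine ⟨?_, full_pol0 (by norm_num), full_pol1 (by norm_num) (by norm_num),
    full_pol2 (by norm_num) (by norm_num) (by norm_num),
    full_pol1 (by norm_num) (by norm_num), full_pol1 (by norm_num) (by norm_num),
    full_pol2 (by norm_num) (by norm_num) (by norm_num),
    full_pol2 (by norm_num) (by norm_num) (by norm_num),
    full_pol3 (by norm_num) (by norm_num) (by norm_num) (by norm_num),
    full_pol3 (by norm_num) (by norm_num) (by norm_num) (by norm_num),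
    ⟨0, by omega, by rw [coeff_pol]; norm_num⟩, ⟨1, by omega, by rw [coeff_pol]; norm_num⟩,
    ⟨1, by omega, by rw [coeff_pol]; norm_num⟩, ⟨0, by omega, by rw [coeff_pol]; norm_num⟩,
    ?_, ?_, ?_, ?_, ?_, ?_⟩
  · change Eqs (T 1) (T (-1)) (T ((0 + 1 : ℕ) : ℤ)) (T ((1 + 1 : ℕ) : ℤ))
      (toLaurent (pol 1 0 0 0)) (br (pol 1 0 0 0)) (toLaurent (pol 1 1 0 0)) (br (pol 1 1 0 0))
      (toLaurent (pol 1 2 2 0)) (br (pol 1 2 2 0)) _ _ _ _ _ _
    have hx : (T ((0 + 1 : ℕ) : ℤ) : ℤ[T;T⁻¹]) = T 1 := rfl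
    have hy : (T ((1 + 1 : ℕ) : ℤ) : ℤ[T;T⁻¹]) = T 1 ^ 2 := by
      rw [sq, ← T_add]; rfl
    simp only [hx, hy, toL_pol, br_pol]
    push_cast
    generalize (T 1 : ℤ[T;T⁻¹]) = u at h ⊢
    generalize (T (-1) : ℤ[T;T⁻¹]) = v at h ⊢
    refine ⟨?_, ?_, ?_, ?_, ?_, ?_⟩
    · linear_combination ((-2) * u ^ 0 * v ^ 0 + (-2) * u ^ 0 * v ^ 1 + (-3) * u ^ 1 * v ^ 0 + (-4) * u ^ 1 * v ^ 1 + (-2) * u ^ 2 * v ^ 0 + (-4) * u ^ 2 * v ^ 1) * h
    · linear_combination ((1) * u ^ 0 * v ^ 0 + (2) * u ^ 0 * v ^ 1) * h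
    · linear_combination ((1) * u ^ 0 * v ^ 0 + (1) * u ^ 1 * v ^ 0 + (2) * u ^ 1 * v ^ 1) * h
    · linear_combination ((-3) * u ^ 0 * v ^ 0 + (-8) * u ^ 1 * v ^ 0 + (-3) * u ^ 1 * v ^ 1 + (-9) * u ^ 2 * v ^ 0 + (-5) * u ^ 2 * v ^ 1 + (-4) * u ^ 3 * v ^ 0 + (-4) * u ^ 3 * v ^ 1) * h
    · linear_combination ((-3) * u ^ 0 * v ^ 0 + (-9) * u ^ 1 * v ^ 0 + (-3) * u ^ 1 * v ^ 1 + (-10) * u ^ 2 * v ^ 0 + (-7) * u ^ 2 * v ^ 1 + (-2) * u ^ 2 * v ^ 2 + (-6) * u ^ 3 * v ^ 0 + (-8) * u ^ 3 * v ^ 1 + (-4) * u ^ 3 * v ^ 2 + (-2) * u ^ 4 * v ^ 0 + (-4) * u ^ 4 * v ^ 1 + (-4) * u ^ 4 * v ^ 2) * h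
    · linear_combination ((-2) * u ^ 0 * v ^ 0 + (-2) * u ^ 0 * v ^ 1 + (-4) * u ^ 1 * v ^ 0 + (-6) * u ^ 1 * v ^ 1 + (-2) * u ^ 1 * v ^ 2 + (-4) * u ^ 2 * v ^ 0 + (-8) * u ^ 2 * v ^ 1 + (-4) * u ^ 2 * v ^ 2 + (-2) * u ^ 3 * v ^ 0 + (-4) * u ^ 3 * v ^ 1 + (-4) * u ^ 3 * v ^ 2) * h
  · intro i hi
    have : i = 0 ∨ i = 1 := by omega
    rcases this with rfl | rfl
    · exact NN_of_eq (a := 0) (b := 4) (c := 3) (d := 2)
        (by simp only [pol_expand]; push_cast; ring) (by norm_num) (by norm_num) (by norm_num)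
        (by norm_num)
    · exact NN_of_eq (a := 3) (b := 3) (c := 2) (d := 1)
        (by simp only [pol_expand]; push_cast; ring) (by norm_num) (by norm_num) (by norm_num)
        (by norm_num)
  · intro i hi
    have : i = 0 ∨ i = 1 := by omega
    rcases this with rfl | rfl
    · exact NN_of_eq (a := 1) (b := 2) (c := 3) (d := 3)
        (by simp only [pol_expand]; push_cast; ring) (by norm_num) (by norm_num) (by norm_num)
        (by norm_num)
    · exact NN_of_eq (a := 2) (b := 3) (c := 4) (d := 0)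
        (by simp only [pol_expand]; push_cast; ring) (by norm_num) (by norm_num) (by norm_num)
        (by norm_num)
  · intro i hi
    have : i = 0 ∨ i = 1 ∨ i = 2 := by omega
    rcases this with rfl | rfl | rfl
    · exact NN_of_eq (a := 2) (b := 4) (c := 4) (d := 2)
        (by simp only [pol_expand]; push_cast; ring) (by norm_num) (by norm_num) (by norm_num)
        (by norm_num)
    · exact NN_of_eq (a := 3) (b := 5) (c := 2) (d := 2)
        (by simp only [pol_expand]; push_cast; ring) (by norm_num) (by norm_num) (by norm_num)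
        (by norm_num)
    · exact NN_of_eq (a := 3) (b := 6) (c := 3) (d := 0)
        (by simp only [pol_expand]; push_cast; ring) (by norm_num) (by norm_num) (by norm_num)
        (by norm_num)
  · intro i hi
    have : i = 0 ∨ i = 1 ∨ i = 2 := by omega
    rcases this with rfl | rfl | rfl
    · exact NN_of_eq (a := 0) (b := 3) (c := 6) (d := 3)
        (by simp only [pol_expand]; push_cast; ring) (by norm_num) (by norm_num) (by norm_num)
        (by norm_num)
    · exact NN_of_eq (a := 2) (b := 2) (c := 5) (d := 3)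
        (by simp only [pol_expand]; push_cast; ring) (by norm_num) (by norm_num) (by norm_num)
        (by norm_num)
    · exact NN_of_eq (a := 2) (b := 4) (c := 4) (d := 2)
        (by simp only [pol_expand]; push_cast; ring) (by norm_num) (by norm_num) (by norm_num)
        (by norm_num)
  · intro i hi
    change NN (pol 1 2 2 0 - X ^ i * pol 1 1 0 0)
    have : i = 0 ∨ i = 1 := by omega
    rcases this with rfl | rfl
    · exact NN_of_eq (a := 0) (b := 1) (c := 2) (d := 0)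
        (by simp only [pol_expand]; push_cast; ring) (by norm_num) (by norm_num) (by norm_num)
        (by norm_num)
    · exact NN_of_eq (a := 1) (b := 1) (c := 1) (d := 0)
        (by simp only [pol_expand]; push_cast; ring) (by norm_num) (by norm_num) (by norm_num)
        (by norm_num)
  · intro i hi
    change NN (pol 1 2 2 0 - X ^ i * pol 1 0 0 0)
    have : i = 0 ∨ i = 1 ∨ i = 2 := by omega
    rcases this with rfl | rfl | rfl
    · exact NN_of_eq (a := 0) (b := 2) (c := 2) (d := 0)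
        (by simp only [pol_expand]; push_cast; ring) (by norm_num) (by norm_num) (by norm_num)
        (by norm_num)
    · exact NN_of_eq (a := 1) (b := 1) (c := 2) (d := 0)
        (by simp only [pol_expand]; push_cast; ring) (by norm_num) (by norm_num) (by norm_num)
        (by norm_num)
    · exact NN_of_eq (a := 1) (b := 2) (c := 1) (d := 0)
        (by simp only [pol_expand]; push_cast; ring) (by norm_num) (by norm_num) (by norm_num)
        (by norm_num)

lemma St.foldl (w : List Bool) : ∀ {α β : ℕ} {V : Vtx} {P P' Q Q' S S' : ℤ[X]},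
    St α β V P P' Q Q' S S' →
    ∃ α' β' P₁ P₁' Q₁ Q₁' S₁ S₁', St α' β' (w.foldl child V) P₁ P₁' Q₁ Q₁' S₁ S₁' := by
  induction w with
  | nil =>
    intro α β V P P' Q Q' S S' h
    exact ⟨_, _, _, _, _, _, _, _, h⟩
  | cons d w ih =>
    intro α β V P P' Q Q' S S' h
    cases d with
    | false => exact ih h.left
    | true => exact ih h.right

lemma Full.pos {p : ℤ[X]} {D : ℕ} (h : Full p D 1) : ∀ j ≤ p.natDegree, 0 < p.coeff j := by
  intro j hj
  have := h.1 j (hj.trans h.2)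
  omega

/-- **MP_99184a_co, Q1 (positive answer).**  All divisions prescribed by the sign rule are exact, so
`vertex` is the mirror Markov tree below `t₀`, and every mirror deformed Markov number has only
positive coefficients (up to its degree). -/
theorem result :
    (∀ w : List Bool,
      IsMut (vertex w).b (vertex w).a (vertex w).c (vertex w).s (vertex (w ++ [false])).c ∧
      IsMut (vertex w).a (vertex w).b (vertex w).c (-(vertex w).s) (vertex (w ++ [true])).c ∧
      (vertex w).a ≠ 0 ∧ (vertex w).b ≠ 0) ∧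
    ∀ v : Node, ∀ m ∈ entries v, ∀ j ≤ m.natDegree, 0 < m.coeff j := by
  refine ⟨fun w => ?_, ?_⟩
  · obtain ⟨α, β, P, P', Q, Q', S, S', h⟩ := St.foldl w root_St
    change St α β (vertex w) P P' Q Q' S S' at h
    have e : ∀ d, vertex (w ++ [d]) = child (vertex w) d := by
      intro d; unfold vertex; rw [List.foldl_append]; rfl
    rw [e, e]
    refine ⟨?_, ?_, h.fa.ne_zero, h.fb.ne_zero⟩
    · change IsMut _ _ _ _ (mutate (vertex w).b (vertex w).a (vertex w).c (vertex w).s)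
      rw [mutate_eq h.fb.ne_zero h.left_mut]
      exact h.left_mut
    · change IsMut _ _ _ _ (mutate (vertex w).a (vertex w).b (vertex w).c (-(vertex w).s))
      rw [mutate_eq h.fa.ne_zero h.right_mut]
      exact h.right_mut
  · have h1 : ∀ j ≤ (1 : ℤ[X]).natDegree, 0 < (1 : ℤ[X]).coeff j := by
      intro j hj
      rw [natDegree_one] at hj
      obtain rfl : j = 0 := by omega
      simp
    have hr := root_St.fb
    have h2 : ∀ j ≤ (1 + X : ℤ[X]).natDegree, 0 < (1 + X : ℤ[X]).coeff j := hr.pos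
    intro v m hm
    rcases v with _ | _ | w
    · simp only [entries, List.mem_cons, List.not_mem_nil, or_false] at hm
      rcases hm with rfl | rfl | rfl <;> exact h1
    · simp only [entries, List.mem_cons, List.not_mem_nil, or_false] at hm
      rcases hm with rfl | rfl | rfl
      · exact h1
      · exact h1
      · exact h2
    · obtain ⟨α, β, P, P', Q, Q', S, S', h⟩ := St.foldl w root_St
      change St α β (vertex w) P P' Q Q' S S' at h
      simp only [entries, List.mem_cons, List.not_mem_nil, or_false] at hm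
      rcases hm with rfl | rfl | rfl
      · exact h.fa.pos
      · exact h.fb.pos
      · exact h.fc.pos

end Pool.Agent.Results.MP_99184a_co.Positivity
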